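import Pool.Agent.Helper70.EH.Goals

/-!
# Project EH: packet EX (binomial theorem)
-/

set_option autoImplicit false

namespace Pool.Agent.Helper14.EH.EX

open Pool.Agent.Helper70.EH Finset

/-- the sum over `range N` without the first term -/
theorem sum_split {N : ℕ} (hN : 1 ≤ N) (f : ℕ → ℝ) :
    ∑ j ∈ range N, f j = f 0 + ∑ j ∈ Ico 1 N, f j := by
  rw [range_eq_Ico, sum_eq_sum_Ico_succ_bot (by omega)]

/-- the binomial theorem, with too many terms -/
theorem bin {M N : ℕ} (h : M + 1 ≤ N) (c y : ℝ) :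
    (c + y) ^ M = c ^ M + ∑ j ∈ Ico 1 N, (M.choose j : ℝ) * c ^ (M - j) * y ^ j := by
  have h1 : (c + y) ^ M = ∑ j ∈ range N, (M.choose j : ℝ) * c ^ (M - j) * y ^ j := by
    rw [add_comm, add_pow]
    have h2 : ∑ m ∈ range (M + 1), y ^ m * c ^ (M - m) * (M.choose m : ℝ) =
        ∑ m ∈ range (M + 1), (M.choose m : ℝ) * c ^ (M - m) * y ^ m :=
      sum_congr rfl fun m _ => by ring
    rw [h2]
    refine sum_subset (range_mono h) fun m _ hm => ?_
    have : M < m := by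
      rw [mem_range] at hm
      omega
    rw [Nat.choose_eq_zero_of_lt this]
    simp
  rw [h1, sum_split (by omega)]
  simp

/-- the binomial theorem, with the last term apart -/
theorem bin' {N : ℕ} (h : 1 ≤ N) (c y : ℝ) :
    (c + y) ^ N = c ^ N + ∑ j ∈ Ico 1 N, (N.choose j : ℝ) * c ^ (N - j) * y ^ j + y ^ N := by
  rw [bin (le_refl (N + 1)) c y, sum_Ico_succ_top h]
  simp
  ring

/-- the geometric sum -/
theorem geo (M : ℕ) (y : ℝ) :
    ∑ i ∈ range M, (1 + y) ^ i = ∑ j ∈ range M, (M.choose (j + 1) : ℝ) * y ^ j := by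
  induction M with
  | zero => simp
  | succ M ih =>
    rw [sum_range_succ, ih]
    have h1 : ∑ j ∈ range (M + 1), ((M + 1).choose (j + 1) : ℝ) * y ^ j =
        ∑ j ∈ range (M + 1), (M.choose (j + 1) : ℝ) * y ^ j +
        ∑ j ∈ range (M + 1), (M.choose j : ℝ) * y ^ j := by
      rw [← sum_add_distrib]
      refine sum_congr rfl fun j _ => ?_
      rw [Nat.choose_succ_succ]
      push_cast
      ring
    have h2 : ∑ j ∈ range (M + 1), (M.choose (j + 1) : ℝ) * y ^ j =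
        ∑ j ∈ range M, (M.choose (j + 1) : ℝ) * y ^ j := by
      rw [sum_range_succ, Nat.choose_succ_self]
      simp
    have h3 : (1 + y) ^ M = ∑ j ∈ range (M + 1), (M.choose j : ℝ) * y ^ j := by
      rw [add_comm, add_pow]
      exact sum_congr rfl fun m _ => by ring
    rw [h1, h2, h3]

/-- the geometric sum without the first term -/
theorem geo' {M N : ℕ} (h1 : 1 ≤ M) (h : M ≤ N) (y : ℝ) :
    ∑ i ∈ Ico 1 M, (1 + y) ^ i = ((M : ℝ) - 1) + ∑ j ∈ Ico 1 N, (M.choose (j + 1) : ℝ) * y ^ j := by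
  have e1 := sum_split h1 (fun i => (1 + y) ^ i)
  have e2 : ∑ j ∈ range M, (M.choose (j + 1) : ℝ) * y ^ j =
      ∑ j ∈ range N, (M.choose (j + 1) : ℝ) * y ^ j := by
    refine sum_subset (range_mono h) fun m _ hm => ?_
    have : M < m + 1 := by
      rw [mem_range] at hm
      omega
    rw [Nat.choose_eq_zero_of_lt this]
    simp
  have e3 := sum_split (by omega : 1 ≤ N) (fun j => (M.choose (j + 1) : ℝ) * y ^ j)
  rw [geo, e2, e3] at e1
  simp only [pow_zero, zero_add, Nat.choose_one_right, mul_one] at e1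
  linarith

theorem t : G_EX := by
  intro N y hN
  refine ⟨?_, ?_, ?_⟩
  · have h1 := bin' (by omega : 1 ≤ N) 2 y
    have h2 := bin' (by omega : 1 ≤ N) 1 y
    have h3 := geo' (by omega : 1 ≤ N) (le_refl N) y
    have h4 : ∑ j ∈ Ico 1 N, ce N j * y ^ j =
        (2 ^ N - 2) * (∑ j ∈ Ico 1 N, (N.choose (j + 1) : ℝ) * y ^ j) -
        ((N : ℝ) - 1) * (∑ j ∈ Ico 1 N, (N.choose j : ℝ) * 2 ^ (N - j) * y ^ j) +
        ((N : ℝ) - 1) * (∑ j ∈ Ico 1 N, (N.choose j : ℝ) * 1 ^ (N - j) * y ^ j) := by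
      rw [mul_sum, mul_sum, mul_sum, ← sum_sub_distrib, ← sum_add_distrib]
      refine sum_congr rfl fun j _ => ?_
      unfold ce
      rw [one_pow]
      ring
    rw [h1, h2, h3, h4, one_pow]
    ring
  · have h1 := bin (by omega : (N - 1) + 1 ≤ N) 2 y
    have h2 := bin (by omega : (N - 1) + 1 ≤ N) 1 y
    have h3 := geo' (by omega : 1 ≤ N - 1) (by omega : N - 1 ≤ N) y
    have hc : ((N - 1 : ℕ) : ℝ) = (N : ℝ) - 1 := by
      rw [Nat.cast_sub (by omega)]
      simp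
    rw [hc] at h3
    have h4 : ∑ j ∈ Ico 1 N, cf N j * y ^ j =
        ((N : ℝ) - 1) * ((N : ℝ) - 1) *
          (∑ j ∈ Ico 1 N, ((N - 1).choose j : ℝ) * 2 ^ (N - 1 - j) * y ^ j) -
        ((N : ℝ) - 1) * ((N : ℝ) + 1) *
          (∑ j ∈ Ico 1 N, ((N - 1).choose j : ℝ) * 1 ^ (N - 1 - j) * y ^ j) -
        2 * (2 ^ N - 2) * (∑ j ∈ Ico 1 N, ((N - 1).choose (j + 1) : ℝ) * y ^ j) := by
      rw [mul_sum, mul_sum, mul_sum, ← sum_sub_distrib, ← sum_sub_distrib]
      refine sum_congr rfl fun j _ => ?_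
      unfold cf
      rw [one_pow]
      ring
    rw [h1, h2, h3, h4, one_pow]
    ring
  · have h1 := bin (by omega : (N - 2) + 1 ≤ N) 2 y
    have h2 := bin (by omega : (N - 2) + 1 ≤ N) 1 y
    have h4 : ∑ j ∈ Ico 1 N, cg N j * y ^ j =
        (∑ j ∈ Ico 1 N, ((N - 2).choose j : ℝ) * 2 ^ (N - 2 - j) * y ^ j) +
        (∑ j ∈ Ico 1 N, ((N - 2).choose j : ℝ) * 1 ^ (N - 2 - j) * y ^ j) := by
      rw [← sum_add_distrib]
      refine sum_congr rfl fun j _ => ?_
      unfold cg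
      rw [one_pow]
      ring
    rw [h1, h2, h4, one_pow]
    ring

end Pool.Agent.Helper14.EH.EX
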